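import Mathlib
import Pool.Agent.Helper1x.CL.Bounds
import Pool.Agent.Helper1x.CL.GadgetFin

/-!
# The approximative complexity of the permanent is `Ω(n² log n)`

Two versions: computations over `k(ε)` whose result specializes to `perm_n` at `ε = 0`, for
every field `k` of characteristic zero, and limits of computations over `ℂ`.  The proof
counts nondegenerate solutions of `∇ f = ℓ`; they persist under small perturbations of `f`,
so the bound for exact computations passes to limits.
-/

set_option autoImplicit false

namespace Pool.Agent.Results.MP_9ce8c8_lc.BorderCircuitComplexity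

open MvPolynomial Filter Topology

universe u

/-- `g 0, g 1, …` is a straight-line computation over `R` in the `n²` variables: the steps in `P`
are products of two earlier results, all other steps are constants plus linear combinations of
the variables and of earlier results. -/
def IsComputation {R : Type u} [CommRing R] {n s : ℕ} (P : Finset (Fin s))
    (g : Fin s → MvPolynomial (Fin n × Fin n) R) : Prop :=
  (∀ i ∈ P, ∃ a b : Fin s, a < i ∧ b < i ∧ g i = g a * g b) ∧
  (∀ i ∉ P, ∃ (c : R) (l : Fin n × Fin n → R) (a : Fin s → R),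
    (∀ j, ¬ j < i → a j = 0) ∧ g i = C c + ∑ v, C (l v) * X v + ∑ j, C (a j) * g j)

theorem result :
    (∀ (k : Type u) [Field k] [CharZero k] (n s : ℕ)
      (g : Fin s → MvPolynomial (Fin n × Fin n) (RatFunc k)) (P : Finset (Fin s))
      (out : Fin s), 2 ^ 30 ≤ n → IsComputation P g →
      (∀ d, ((g out).coeff d).denom.eval 0 ≠ 0 ∧
        ((g out).coeff d).eval (RingHom.id k) 0 =
          (Matrix.of fun i j : Fin n =>
            (X (i, j) : MvPolynomial (Fin n × Fin n) k)).permanent.coeff d) →
      (n : ℝ) ^ 2 * Real.log n ≤ 20000 * P.card) ∧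
    (∀ (n p : ℕ) (s : ℕ → ℕ) (g : ∀ t, Fin (s t) → MvPolynomial (Fin n × Fin n) ℂ)
      (P : ∀ t, Finset (Fin (s t))) (out : ∀ t, Fin (s t)), 2 ^ 30 ≤ n →
      (∀ t, IsComputation (P t) (g t) ∧ (P t).card ≤ p) →
      (∀ d, Tendsto (fun t => (g t (out t)).coeff d) atTop
        (𝓝 ((Matrix.of fun i j : Fin n =>
          (X (i, j) : MvPolynomial (Fin n × Fin n) ℂ)).permanent.coeff d))) →
      (n : ℝ) ^ 2 * Real.log n ≤ 20000 * p) := by
  have hperm : ∀ (R : Type u) [CommRing R] (n : ℕ), (Matrix.of fun i j : Fin n =>
      (X (i, j) : MvPolynomial (Fin n × Fin n) R)).permanent = H1CL.permR R n := by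
    intro R _ n
    rw [← Matrix.permanent_transpose]
    rfl
  refine ⟨fun k _ _ n s g P out hn hg hF => ?_, fun n p s g P out hn hg hlim => ?_⟩
  · refine H1CL.ratFunc_bound H1CL.gadget n s hn P g
      (fun i => ⟨fun hi => hg.1 i hi, fun hi => hg.2 i hi⟩) out (fun d => ?_)
    rw [← hperm k n]
    exact hF d
  · refine H1CL.limit_bound H1CL.gadget n p hn s P g out
      (fun t i => ⟨fun hi => (hg t).1.1 i hi, fun hi => (hg t).1.2 i hi⟩)
      (fun t => (hg t).2) (fun d => ?_)
    have h1 : (Matrix.of fun i j : Fin n =>
        (X (i, j) : MvPolynomial (Fin n × Fin n) ℂ)).permanent = H1CL.permR ℂ n := by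
      rw [← Matrix.permanent_transpose]
      rfl
    rw [← h1]
    exact hlim d

end Pool.Agent.Results.MP_9ce8c8_lc.BorderCircuitComplexity
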