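import Mathlib
import Pool.Agent.Helper33x.DC.BorderPerm

/-!
# Border determinantal complexity of the permanent: `m ≥ (1 - o(1)) n²`

For every `η > 0` and all sufficiently large `n`: if `perm_n` over a field `k` of characteristic
zero is the specialization at `ε = 0` of the determinant of an `m × m` matrix of affine-linear forms
over `k(ε)`, then `m ≥ (1 - η) n²`.

Idea: at a smooth zero of the permanent the approximating determinants have zeros, through which
they vanish on a linear space of dimension `≥ n² - m`; its reduction is a linear space of the same
dimension through the given zero on which the permanent vanishes. At the zero with all-one main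
rows, `t` classes of `b` columns and a few special rows, the Taylor forms of order `≤ k` on
directions with vanishing class sums are power sum forms up to `o(n²)` products of two forms in
disjoint sets of arguments; a saturation argument removes the products, and a Kneser-type theorem
bounds the dimension of a linear space with vanishing power sums.
-/

set_option autoImplicit false

namespace Pool.Agent.Results.MP_9ce8c8_lc.BorderDetComplexityAsymp

theorem result.{u} (η : ℝ) (hη : 0 < η) : ∃ n₀ : ℕ, ∀ (k : Type u) [Field k] [CharZero k]
    (n m : ℕ), n₀ ≤ n →
    ∀ A : Matrix (Fin m) (Fin m) (MvPolynomial (Fin n × Fin n) (RatFunc k)),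
    (∀ i j, (A i j).totalDegree ≤ 1) →
    (∀ d, (A.det.coeff d).denom.eval 0 ≠ 0 ∧
      (A.det.coeff d).eval (RingHom.id k) 0 =
        (Matrix.of fun i j : Fin n =>
          (MvPolynomial.X (i, j) : MvPolynomial (Fin n × Fin n) k)).permanent.coeff d) →
    (1 - η) * (n : ℝ) ^ 2 ≤ m := by
  obtain ⟨n₀, h⟩ := Pool.Agent.Helper33x.DC.of_bound η hη
  exact ⟨n₀, fun k _ _ n m hn A hA hdet => h n m hn fun p R b hp hR hb =>
    Pool.Agent.Helper33x.DC.border_ratFunc n m A hA hdet hp hR hb⟩

end Pool.Agent.Results.MP_9ce8c8_lc.BorderDetComplexityAsymp
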