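import Mathlib
import Pool.Agent.Helper1x.EP.Grenet
import Pool.Agent.Helper1x.EP.Exist

/-!
# Approximative torus-equivariant determinantal representations of the permanent

If the permanent is a limit of determinants of matrices which are equivariant under generic pairs `(S, T)` of diagonal
matrices, then the size of the matrices is at least `2 ^ n - 1`.
-/

set_option autoImplicit false

namespace Pool.Agent.Results.MP_9ce8c8_lc.BorderEquivariantPermanent

open MvPolynomial Filter Topology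

universe u

variable {K : Type u} [Field K] {n m : ℕ}

/-- A pair `(S, T)` of invertible diagonal matrices, given by the diagonal entries, is generic: if the exponents in a
relation `∏ s_i ^ a_i * ∏ t_j ^ b_j = 1` have absolute value at most two and the same sum on both sides, then they are
all equal. -/
def Generic (s t : Fin n → Kˣ) : Prop :=
  ∀ a b : Fin n → ℤ, (∀ i, |a i| ≤ 2) → (∀ j, |b j| ≤ 2) → ∑ i, a i = ∑ j, b j →
    (∏ i, s i ^ a i) * ∏ j, t j ^ b j = 1 → ∃ k : ℤ, (∀ i, a i = k) ∧ ∀ j, b j = k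

/-- the substitution `x ↦ S x T`, that is `x_ij ↦ s_i t_j x_ij` -/
noncomputable def subst (s t : Fin n → Kˣ) : MvPolynomial (Fin n × Fin n) K →ₐ[K] MvPolynomial (Fin n × Fin n) K :=
  aeval fun x => C ((s x.1 * t x.2 : Kˣ) : K) * X x

/-- `M` is equivariant under `(S, T)`: there are invertible matrices `B`, `D` over `K` with `M(SxT) = B M(x) D` or
`M(SxT) = B M(x)ᵀ D`. -/
def Equivariant (s t : Fin n → Kˣ) (M : Matrix (Fin m) (Fin m) (MvPolynomial (Fin n × Fin n) K)) : Prop :=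
  ∃ B D : Matrix (Fin m) (Fin m) K, IsUnit B.det ∧ IsUnit D.det ∧
    (M.map (subst s t) = B.map C * M * D.map C ∨ M.map (subst s t) = B.map C * M.transpose * D.map C)

/-- the permanent of the generic `n × n` matrix -/
noncomputable def per (n : ℕ) (K : Type u) [Field K] : MvPolynomial (Fin n × Fin n) K :=
  (Matrix.of fun i j : Fin n => (X (i, j) : MvPolynomial (Fin n × Fin n) K)).permanent

/-- all coefficients of `f` are defined at `ε = 0` and `f` specializes there to `g` -/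
def SpecializesTo {σ : Type} {k : Type u} [Field k] (f : MvPolynomial σ (RatFunc k))
    (g : MvPolynomial σ k) : Prop :=
  ∀ e, (f.coeff e).denom.eval 0 ≠ 0 ∧ (f.coeff e).eval (RingHom.id k) 0 = g.coeff e

theorem result :
    -- (1) approximations over `k(ε)`
    (∀ (k : Type u) [Field k] (n d m : ℕ) (s t : Fin n → (RatFunc k)ˣ)
      (M : Matrix (Fin m) (Fin m) (MvPolynomial (Fin n × Fin n) (RatFunc k))),
      3 ≤ n → (2 : k) ≠ 0 → Generic s t → (∀ i j, (M i j).totalDegree ≤ d) → SpecializesTo M.det (per n k) →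
      Equivariant s t M →
      (((∏ i, s i) * ∏ j, t j) ^ 2 ≠ 1 →
        (d = 1 → 2 ^ n - 1 ≤ m) ∧ (1 ≤ d → d ≤ n → n.choose ((n - d + 1) / 2) ≤ m)) ∧
      (1 ≤ d → d ≤ n → n.choose ((n - d + 1) / 2) ≤ m * m)) ∧
    -- (2) limits over `ℂ`
    (∀ (n d m : ℕ) (s t : ℕ → Fin n → ℂˣ) (M : ℕ → Matrix (Fin m) (Fin m) (MvPolynomial (Fin n × Fin n) ℂ)),
      3 ≤ n → (∀ k, Generic (s k) (t k)) → (∀ k i j, (M k i j).totalDegree ≤ d) →
      (∀ e, Tendsto (fun k => (M k).det.coeff e) atTop (𝓝 ((per n ℂ).coeff e))) →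
      (∀ k, Equivariant (s k) (t k) (M k)) →
      ((∀ k, ((∏ i, s k i) * ∏ j, t k j) ^ 2 ≠ 1) →
        (d = 1 → 2 ^ n - 1 ≤ m) ∧ (1 ≤ d → d ≤ n → n.choose ((n - d + 1) / 2) ≤ m)) ∧
      (1 ≤ d → d ≤ n → n.choose ((n - d + 1) / 2) ≤ m * m)) ∧
    -- (3) the upper bound
    (∀ (K : Type u) [Field K] (n : ℕ), 1 ≤ n →
      ∃ M : Matrix (Fin (2 ^ n - 1)) (Fin (2 ^ n - 1)) (MvPolynomial (Fin n × Fin n) K),
        (∀ i j, (M i j).totalDegree ≤ 1) ∧ M.det = per n K ∧ ∀ s t : Fin n → Kˣ, Equivariant s t M) ∧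
    -- (4) generic pairs exist over infinite fields, also with `det S * det T = 1`
    (∀ (K : Type u) [Field K] [Infinite K] (n : ℕ), 1 ≤ n →
      (∃ s t : Fin n → Kˣ, Generic s t ∧ ((∏ i, s i) * ∏ j, t j) ^ 2 ≠ 1) ∧
      ∃ s t : Fin n → Kˣ, Generic s t ∧ (∏ i, s i) * ∏ j, t j = 1) := by
  refine ⟨fun k _ n d m s t M hn h2 hg hd hF hE => ?_, fun n d m s t M hn hg hd hlim hE => ?_, fun K _ n hn => ?_,
    fun K _ _ n hn => ⟨Pool.Agent.Helper1x.EP.exists_pair K hn, Pool.Agent.Helper1x.EP.exists_pair_one K hn⟩⟩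
  · exact Pool.Agent.Helper1x.EP.border_rat hn h2 (fun σ => hF _) hd hg hE
  · exact Pool.Agent.Helper1x.EP.border_limit hn hlim hd hg hE
  · obtain ⟨M, hM, hE⟩ := Pool.Agent.Helper1x.EP.grenet K hn
    exact ⟨M, hM.1, by rw [hM.2]; exact (Pool.Agent.Helper1x.EP.per_eq K).symm, hE⟩

end Pool.Agent.Results.MP_9ce8c8_lc.BorderEquivariantPermanent
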