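import Pool.Agent.HS38.PX.Border

/-!
# The singular locus of the permanent and approximative computations

For every field `K` of characteristic different from `2` and `n ≥ 2` the singular locus of the
hypersurface `per_n = 0` has codimension exactly `2 n` (the known lower bounds are constants: `5`,
von zur Gathen 1987, and `6`, Boralevi, Carlini, Michałek and Ventura). The consequences for
computations hold for approximative computations: over `k(ε)` with specialization at `ε = 0`, and for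
coefficientwise limits over `ℂ`.

Only the forms of degree `n` have to converge to `per_n`; the coefficients of lower degree are
arbitrary (they may have poles at `ε = 0`, or tend to infinity).
-/

set_option autoImplicit false

namespace Pool.Agent.Results.MP_9ce8c8_lc.BorderSingularLocus

open MvPolynomial Matrix Filter Topology

/-- the permanent of the generic `n × n` matrix -/
noncomputable def per (n : ℕ) (K : Type) [Field K] : MvPolynomial (Fin n × Fin n) K :=
  (mvPolynomialX (Fin n) (Fin n) K).permanent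

/-- The lower bounds for a polynomial `F` in the `n²` variables:
(a) the ideal of all partial derivatives of `F` has height at least `2 n`;
(b) if `F = G (g_1, …, g_r)`, where the polynomials `g_i` generate a proper ideal and `G` has no linear
terms, then `r ≥ 2 n`;
(c) if `F = ∑_{i < m} g_i h_i` with `deg g_i ≤ k`, `deg h_i ≤ n - k`, `0 < k < n`, then `m ≥ n`. -/
def LowerBounds {K : Type} [Field K] (n : ℕ) (F : MvPolynomial (Fin n × Fin n) K) : Prop :=
  ((2 * n : ℕ) : ℕ∞) ≤ (Ideal.span (Set.range fun x => pderiv x F)).height ∧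
  (∀ (r : ℕ) (g : Fin r → MvPolynomial (Fin n × Fin n) K) (G : MvPolynomial (Fin r) K),
    Ideal.span (Set.range g) ≠ ⊤ → (∀ i, coeff (Finsupp.single i 1) G = 0) →
    aeval g G = F → 2 * n ≤ r) ∧
  (∀ (m k : ℕ) (g h : Fin m → MvPolynomial (Fin n × Fin n) K), 0 < k → k < n →
    (∀ i, (g i).totalDegree ≤ k) → (∀ i, (h i).totalDegree ≤ n - k) →
    ∑ i, g i * h i = F → n ≤ m)

/-- `F` is a polynomial in `r` forms of degrees between `1` and `n - 1` -/
def ByForms {K : Type} [Field K] (n r : ℕ) (F : MvPolynomial (Fin n × Fin n) K) : Prop :=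
  ∃ (g : Fin r → MvPolynomial (Fin n × Fin n) K) (d : Fin r → ℕ) (G : MvPolynomial (Fin r) K),
    (∀ i, (g i).IsHomogeneous (d i) ∧ 0 < d i ∧ d i < n) ∧ aeval g G = F

theorem result :
    (∀ (k : Type) [Field k], (2 : k) ≠ 0 → ∀ n : ℕ, 2 ≤ n →
      (∀ F : MvPolynomial (Fin n × Fin n) (RatFunc k), F.totalDegree ≤ n →
        (∀ s : (Fin n × Fin n) →₀ ℕ, s.degree = n → (F.coeff s).denom.eval 0 ≠ 0 ∧
          (F.coeff s).eval (RingHom.id k) 0 = (per n k).coeff s) → LowerBounds n F) ∧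
      IsLeast {r : ℕ | ∃ F : MvPolynomial (Fin n × Fin n) (RatFunc k), ByForms n r F ∧
        ∀ s : (Fin n × Fin n) →₀ ℕ, (F.coeff s).denom.eval 0 ≠ 0 ∧
          (F.coeff s).eval (RingHom.id k) 0 = (per n k).coeff s} (2 * n)) ∧
    (∀ n : ℕ, 2 ≤ n →
      (∀ F : ℕ → MvPolynomial (Fin n × Fin n) ℂ, (∀ t, (F t).totalDegree ≤ n) →
        (∀ s : (Fin n × Fin n) →₀ ℕ, s.degree = n →
          Tendsto (fun t => (F t).coeff s) atTop (𝓝 ((per n ℂ).coeff s))) →
        ∀ᶠ t in atTop, LowerBounds n (F t)) ∧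
      IsLeast {r : ℕ | ∃ F : ℕ → MvPolynomial (Fin n × Fin n) ℂ, (∀ t, ByForms n r (F t)) ∧
        ∀ s : (Fin n × Fin n) →₀ ℕ,
          Tendsto (fun t => (F t).coeff s) atTop (𝓝 ((per n ℂ).coeff s))} (2 * n)) ∧
    (∀ (K : Type) [Field K], (2 : K) ≠ 0 → ∀ n : ℕ, 2 ≤ n →
      (Ideal.span (Set.range fun x => pderiv x (per n K))).height = ((2 * n : ℕ) : ℕ∞)) := by
  refine ⟨fun k _ h2 n hn => ⟨fun F hF h => ?_, ?_, ?_⟩, fun n hn => ⟨fun F hF h => ?_, ?_, ?_⟩,
    fun K _ h2 n hn => ?_⟩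
  · exact Pool.Agent.HS38.PX.hard_of_top hn hF (Pool.Agent.HS38.PX.small_rat h2 hn h)
  · obtain ⟨g, d, G, hg, hG⟩ := Pool.Agent.HS38.PX.exists_forms (K := RatFunc k) hn
    refine ⟨per n (RatFunc k), ⟨g, d, G, hg, hG⟩, fun s => ?_⟩
    have h1 : (per n (RatFunc k)).coeff s = RatFunc.C ((per n k).coeff s) :=
      Pool.Agent.HS38.PX.gp_map (RatFunc k) s
    rw [h1, RatFunc.denom_C, RatFunc.eval_C]
    simp
  · rintro r ⟨F, ⟨g, d, G, hg, rfl⟩, hF⟩
    exact Pool.Agent.HS38.PX.card_forms_of_top hn g d hg G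
      (Pool.Agent.HS38.PX.small_rat h2 hn fun s _ => hF s)
  · filter_upwards [Pool.Agent.HS38.PX.small_lim hn h] with t ht
    exact Pool.Agent.HS38.PX.hard_of_top hn (hF t) ht
  · obtain ⟨g, d, G, hg, hG⟩ := Pool.Agent.HS38.PX.exists_forms (K := ℂ) hn
    exact ⟨fun _ => per n ℂ, fun _ => ⟨g, d, G, hg, hG⟩, fun s => tendsto_const_nhds⟩
  · rintro r ⟨F, hF, hlim⟩
    obtain ⟨t, ht⟩ := (Pool.Agent.HS38.PX.small_lim hn fun s _ => hlim s).exists
    obtain ⟨g, d, G, hg, hG⟩ := hF t
    rw [← hG] at ht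
    exact Pool.Agent.HS38.PX.card_forms_of_top hn g d hg G ht
  · exact le_antisymm (Pool.Agent.HS38.PX.height_jac_le hn)
      (Pool.Agent.HS38.PX.le_height_jac h2 hn)

end Pool.Agent.Results.MP_9ce8c8_lc.BorderSingularLocus
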